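import Mathlib

set_option autoImplicit false

/-!
# Block BG (bounded gaps, 240): common definitions and the interfaces between the parts A, B, C, D

See the note of helper99 on MP_b51559_nt in the notes table.
-/

namespace MPb51559.BG

open Finset Filter Topology MeasureTheory

/-- admissible weights: smooth, nonnegative, supported in (9/8, 15/8), not zero -/
structure Wt (w : ℝ → ℝ) : Prop where
  smooth : ∀ m : ℕ, ContDiff ℝ m w
  nonneg : ∀ u, 0 ≤ w u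
  supp : ∀ u, w u ≠ 0 → 9 / 8 < u ∧ u < 15 / 8
  pos : 0 < ∫ u, w u

/-- smooth functions with compact support in the positive half line: the class used in part A
(closed under multiplication by powers of the logarithm) -/
structure Wc (w : ℝ → ℝ) : Prop where
  smooth : ∀ m : ℕ, ContDiff ℝ m w
  supp : ∀ u, w u ≠ 0 → 17 / 16 < u ∧ u < 31 / 16

/-- the weighted theta sum in a residue class -/
noncomputable def thW (w : ℝ → ℝ) (x : ℝ) (q a : ℕ) : ℝ :=
  ∑ p ∈ (range (⌊2 * x⌋₊ + 1)).filter (fun p : ℕ => p.Prime ∧ ((p : ℕ) : ZMod q) = (a : ZMod q)),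
    Real.log (p : ℝ) * w ((p : ℝ) / x)

/-- the twisted weighted psi sum -/
noncomputable def psC (w : ℝ → ℝ) (x : ℝ) {q : ℕ} (χ : DirichletCharacter ℂ q) : ℂ :=
  ∑ n ∈ range (⌊2 * x⌋₊ + 1),
    (ArithmeticFunction.vonMangoldt n : ℂ) * χ (n : ZMod q) * (w ((n : ℝ) / x) : ℂ)

/-- PART A, main output: Siegel Walfisz for all non principal characters, smooth weights -/
def SWF : Prop := ∀ (w : ℝ → ℝ), Wc w → ∀ (A B : ℕ), ∃ x0 : ℝ, ∀ x ≥ x0, ∀ (q : ℕ) [NeZero q],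
  (q : ℝ) ≤ Real.log x ^ B → ∀ χ : DirichletCharacter ℂ q, χ ≠ 1 →
  ‖psC w x χ‖ ≤ x / Real.log x ^ A

/-- PART A, second output: the prime number theorem with a weight -/
def PNTW : Prop := ∀ (w : ℝ → ℝ), Wt w →
  Tendsto (fun x : ℝ => thW w x 1 0 / x) atTop (𝓝 (∫ u, w u))

/-- PART B: Bombieri Vinogradov with a smooth weight, level x ^ (1/2 - δ), all moduli, arbitrary
coprime residue classes, with the divisor weight c ^ ω(q) -/
def BVE : Prop := ∀ (w : ℝ → ℝ), Wt w → ∀ (δ : ℝ), 0 < δ → ∀ (c A : ℕ), ∃ x0 : ℝ, ∀ x ≥ x0,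
  ∀ a : ℕ → ℕ, ∑ q ∈ (Icc 1 ⌊x ^ (1 / 2 - δ)⌋₊).filter (fun q => (a q).Coprime q),
    (c : ℝ) ^ q.primeFactors.card * |thW w x q (a q) - thW w x 1 0 / (q.totient : ℝ)|
      ≤ x / Real.log x ^ A

/-- two primes among the translates of an admissible tuple, in (x, 2x) -/
def TwoPrimes {k : ℕ} (h : Fin k → ℕ) : Prop := ∃ x0 : ℝ, ∀ x ≥ x0, ∃ n : ℕ, x < n ∧
  (∀ i, (n + h i : ℝ) < 2 * x) ∧ ∃ i j : Fin k, i ≠ j ∧ (n + h i).Prime ∧ (n + h j).Prime

/-- admissible tuples -/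
def Adm {k : ℕ} (h : Fin k → ℕ) : Prop :=
  Function.Injective h ∧ ∀ p : ℕ, p.Prime → ∃ v : ℕ, ∀ i, ¬ p ∣ v + h i

/-- gaps at most `g` -/
def GapLe (g : ℕ) : Prop := ∃ N : ℕ, ∀ x ≥ N, ∃ p q : ℕ, p.Prime ∧ q.Prime ∧ x < p ∧ p < q ∧
  q ≤ 2 * x ∧ q - p ≤ g

/-- the hand in -/
def Gap240 : Prop := GapLe 240

/-- an admissible tuple of length 49 and diameter 240 -/
def Tup49 : Prop := ∃ h : Fin 49 → ℕ, Adm h ∧ ∀ i, h i ≤ 240

/-! ## Part C and D: the functional -/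

/-- the parameters of the slices: `T` the support of `F`, `z` the depths, `Λ` the multipliers -/
structure Sl where
  T : ℝ
  L : ℕ
  z : ℕ → ℝ
  Lam : ℕ → ℝ

/-- admissible parameters -/
structure Sl.Ok (P : Sl) : Prop where
  hT1 : 1 < P.T
  hT2 : P.T < 2
  z0 : P.z 0 = 0
  zmono : ∀ l < P.L, P.z l < P.z (l + 1)
  zT : P.z P.L ≤ P.T - 1
  Lpos : ∀ l < P.L, 0 ≤ P.Lam l
  Lmono : ∀ l, l + 1 < P.L →
    P.Lam (l + 1) * (4 - P.T + P.z (l + 2)) ≤ P.Lam l * (4 - P.T + P.z (l + 1))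

open Classical in
/-- the density: 1 on the core, `Λ/(1+Λ)` on the inner slices, `-Λ (4-T+z(l+1))/(2-s)` on the
outer ones (the factor 4/(2-s) is the upper bound sieve, the factor (4-T+z(l+1))/4 is
(K-1)/K for the inner slice, K = 4/(T-z(l+1))).
Slice `l < L` has depths in the interval from `z l` to `z (l+1)`. -/
noncomputable def Sl.rho (P : Sl) (s : ℝ) : ℝ :=
  if s ≤ 2 - P.T then 1 else
    ∑ l ∈ range P.L,
      ((if 2 - P.T + P.z l < s ∧ s ≤ 2 - P.T + P.z (l + 1) then P.Lam l / (1 + P.Lam l) else 0) -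
       (if P.T - P.z (l + 1) < s ∧ s ≤ P.T - P.z l then
         P.Lam l * ((4 - P.T + P.z (l + 1)) / (2 - s)) else 0))

/-- test functions: bounded, measurable, supported on the simplex of size `T`, all one
dimensional sections of bounded variation (uniformly) -/
structure Tst (k : ℕ) (T : ℝ) (F : (Fin k → ℝ) → ℝ) : Prop where
  meas : Measurable F
  supp : ∀ t, F t ≠ 0 → (∀ i, 0 ≤ t i) ∧ ∑ i, t i ≤ T
  bdd : ∃ M : ℝ, ∀ t, |F t| ≤ M
  bv : ∃ V : NNReal, ∀ (t : Fin k → ℝ) (i : Fin k),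
    eVariationOn (fun s => F (Function.update t i s)) Set.univ ≤ V

/-- the marginal in direction `m` (a function on the whole space, independent of `t m`) -/
noncomputable def marg {k : ℕ} (F : (Fin k → ℝ) → ℝ) (m : Fin k) (t : Fin k → ℝ) : ℝ :=
  ∫ s, F (Function.update t m s)

/-- the prime form in direction `m`: integral over the other variables -/
noncomputable def Jm {k : ℕ} (P : Sl) (F : (Fin k → ℝ) → ℝ) (m : Fin k) : ℝ :=
  ∫ t in {t : Fin k → ℝ | 0 ≤ t m ∧ t m < 1},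
    P.rho (∑ j ∈ univ.erase m, t j) * marg F m t ^ 2

/-- the criterion -/
def Crit {k : ℕ} (P : Sl) (F : (Fin k → ℝ) → ℝ) : Prop :=
  4 * ∫ t, F t ^ 2 < ∑ m, Jm P F m

/-- PART C: the sieve -/
def SIEVE : Prop := BVE → PNTW → ∀ (k : ℕ), 2 ≤ k → ∀ (h : Fin k → ℕ), Adm h →
  ∀ (P : Sl), P.Ok → ∀ (F : (Fin k → ℝ) → ℝ), Tst k P.T F → Crit P F → TwoPrimes h

/-- PART D: the numerics -/
def NUMk (k : ℕ) : Prop := ∃ (P : Sl) (F : (Fin k → ℝ) → ℝ), P.Ok ∧ Tst k P.T F ∧ Crit P F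
def NUM : Prop := NUMk 49

/-- the final assembly -/
def FIN : Prop := (SWF → BVE) → SWF → PNTW → SIEVE → NUM → Tup49 → Gap240

end MPb51559.BG
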