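import Pool.Agent.Work.MP_b51559_nt.BG.Defs

set_option autoImplicit false

/-!
Item Wex: existence of a weight, bounds, Riemann sums of a weight in residue classes.
-/

namespace MPb51559.BG

open Finset Filter Topology MeasureTheory

/-- the bump function with centre `3/2` and radii `1/4`, `3/8` -/
noncomputable def Wex_bump : ContDiffBump (3 / 2 : ℝ) where
  rIn := 1 / 4
  rOut := 3 / 8
  rIn_pos := by norm_num
  rIn_lt_rOut := by norm_num

theorem prf_Wex : ∃ w : ℝ → ℝ, Wt w := by
  refine ⟨fun u => Wex_bump u, ?_, ?_, ?_, ?_⟩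
  · intro m
    exact Wex_bump.contDiff
  · intro u
    exact Wex_bump.nonneg
  · intro u hu
    have h1 : u ∈ Function.support (Wex_bump : ℝ → ℝ) := hu
    rw [Wex_bump.support_eq, Metric.mem_ball, Real.dist_eq, abs_lt] at h1
    have h2 : Wex_bump.rOut = 3 / 8 := rfl
    rw [h2] at h1
    constructor <;> linarith [h1.1, h1.2]
  · exact Wex_bump.integral_pos

theorem Wt_cpt (w : ℝ → ℝ) (hw : Wt w) : HasCompactSupport w := by
  refine HasCompactSupport.intro (K := Set.Icc (9 / 8 : ℝ) (15 / 8)) isCompact_Icc fun u hu => ?_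
  by_contra h
  exact hu ⟨(hw.supp u h).1.le, (hw.supp u h).2.le⟩

theorem Wt_cont (w : ℝ → ℝ) (hw : Wt w) : Continuous w := (hw.smooth 0).continuous

theorem Wt_bdd (w : ℝ → ℝ) (hw : Wt w) : ∃ M, ∀ u, w u ≤ M := by
  obtain ⟨M, hM⟩ := (Wt_cpt w hw).exists_bound_of_continuous (Wt_cont w hw)
  exact ⟨M, fun u => (le_abs_self _).trans (hM u)⟩

theorem Wt_Wc (w : ℝ → ℝ) (hw : Wt w) : Wc w :=
  ⟨hw.smooth, fun u hu => ⟨by linarith [(hw.supp u hu).1], by linarith [(hw.supp u hu).2]⟩⟩

theorem Wt_lip (w : ℝ → ℝ) (hw : Wt w) : ∃ C, ∀ u v, |w u - w v| ≤ C * |u - v| := by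
  obtain ⟨C, hC⟩ := ContDiff.lipschitzWith_of_hasCompactSupport (Wt_cpt w hw) (hw.smooth 1)
    (by simp)
  refine ⟨C, fun u v => ?_⟩
  have := hC.dist_le_mul u v
  rwa [Real.dist_eq, Real.dist_eq] at this

/-- the residue class as a progression -/
theorem Wt_prog (f : ℝ → ℝ) (x : ℝ) (q a : ℕ) (hx : 1 ≤ x) (hq : 0 < q)
    (hf : ∀ t, 2 * x < t → f t = 0) :
    ∑ n ∈ (Finset.range (⌊2 * x⌋₊ + 1)).filter (fun n => n % q = a % q), f (n : ℝ) =
      ∑ k ∈ Finset.range (⌊2 * x / q⌋₊ + 1), f ((a % q : ℕ) + (q : ℝ) * k) := by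
  have hq' : (0 : ℝ) < q := by exact_mod_cast hq
  have hinj : Function.Injective (fun k : ℕ => a % q + q * k) := by
    intro k l h
    have h1 : q * k = q * l := by
      have : a % q + q * k = a % q + q * l := h
      omega
    exact Nat.eq_of_mul_eq_mul_left hq h1
  have h1 : ∑ k ∈ Finset.range (⌊2 * x / q⌋₊ + 1), f ((a % q : ℕ) + (q : ℝ) * k) =
      ∑ n ∈ (Finset.range (⌊2 * x / q⌋₊ + 1)).image (fun k : ℕ => a % q + q * k), f (n : ℝ) := by
    rw [Finset.sum_image (fun k _ l _ h => hinj h)]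
    refine Finset.sum_congr rfl fun k _ => ?_
    push_cast
    rfl
  rw [h1]
  refine Finset.sum_subset ?_ ?_
  · intro n hn
    rw [Finset.mem_filter, Finset.mem_range] at hn
    rw [Finset.mem_image]
    refine ⟨n / q, ?_, ?_⟩
    · rw [Finset.mem_range, Nat.lt_add_one_iff]
      refine Nat.le_floor ?_
      have h2 : (n : ℝ) ≤ 2 * x := by
        have h3 : n ≤ ⌊2 * x⌋₊ := by omega
        exact (Nat.cast_le.2 h3).trans (Nat.floor_le (by linarith))
      rw [le_div_iff₀ hq']
      have h3 : n / q * q ≤ n := Nat.div_mul_le_self n q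
      have h4 : ((n / q : ℕ) : ℝ) * q ≤ n := by exact_mod_cast h3
      linarith
    · rw [← hn.2]
      exact Nat.mod_add_div n q
  · intro n hn hn'
    apply hf
    rw [Finset.mem_image] at hn
    obtain ⟨k, -, rfl⟩ := hn
    have h2 : (a % q + q * k) % q = a % q := by
      rw [Nat.add_mul_mod_self_left, Nat.mod_mod]
    by_contra h3
    push Not at h3
    apply hn'
    rw [Finset.mem_filter, Finset.mem_range]
    refine ⟨?_, h2⟩
    have h4 := Nat.le_floor h3
    exact Nat.lt_add_one_iff.2 h4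

theorem Wt_sum (w : ℝ → ℝ) (hw : Wt w) : ∃ C, ∀ (x : ℝ) (q a : ℕ), 1 ≤ x → 0 < q →
    |∑ n ∈ (Finset.range (⌊2 * x⌋₊ + 1)).filter (fun n => n % q = a % q), w ((n : ℝ) / x) -
      x * (∫ u, w u) / q| ≤ C := by
  obtain ⟨M, hM⟩ := Wt_bdd w hw
  obtain ⟨L, hL⟩ := Wt_lip w hw
  have hM0 : 0 ≤ M := (hw.nonneg 0).trans (hM 0)
  have hL0 : 0 ≤ L := by
    have := hL 1 0
    rw [sub_zero, abs_one, mul_one] at this
    exact (abs_nonneg _).trans this
  have hI := hw.pos
  refine ⟨2 * M + (∫ u, w u) + 3 * L, fun x q a hx hq => ?_⟩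
  have hq' : (0 : ℝ) < q := by exact_mod_cast hq
  have hx0 : 0 < x := by linarith
  have hf0 : ∀ t : ℝ, 2 * x < t → w (t / x) = 0 := by
    intro t ht
    by_contra h
    have h1 := (hw.supp _ h).2
    rw [div_lt_iff₀ hx0] at h1
    linarith
  rw [Wt_prog (fun t => w (t / x)) x q a hx hq hf0]
  set K : ℕ := ⌊2 * x / q⌋₊ + 1 with hK
  have hK1 : 2 * x / q < K := by
    rw [hK]
    push_cast
    exact Nat.lt_floor_add_one _
  have hK2 : (K : ℝ) ≤ 2 * x / q + 1 := by
    rw [hK]
    push_cast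
    have := Nat.floor_le (show 0 ≤ 2 * x / q by positivity)
    linarith
  rcases le_or_gt (q : ℝ) x with hqx | hqx
  · -- Riemann sum
    have hr : ((a % q : ℕ) : ℝ) < q := by exact_mod_cast Nat.mod_lt a hq
    have hr0 : (0 : ℝ) ≤ ((a % q : ℕ) : ℝ) := Nat.cast_nonneg _
    set r : ℝ := ((a % q : ℕ) : ℝ) with hrdef
    have hcf : Continuous (fun t : ℝ => w (t / x)) := (Wt_cont w hw).comp (by fun_prop)
    have h1 : ∫ t in r..(r + q * K), w (t / x) = x * ∫ u, w u := by
      rw [intervalIntegral.integral_eq_integral_of_support_subset]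
      · rw [MeasureTheory.Measure.integral_comp_div, abs_of_pos hx0, smul_eq_mul]
      · intro t ht
        have h2 := hw.supp _ ht
        rw [lt_div_iff₀ hx0, div_lt_iff₀ hx0] at h2
        rw [div_lt_iff₀ hq'] at hK1
        constructor
        · linarith [h2.1]
        · linarith [h2.2]
    have h2 : ∑ k ∈ Finset.range K, ∫ t in (r + q * (k : ℝ))..(r + q * ((k + 1 : ℕ) : ℝ)),
        w (t / x) = ∫ t in r..(r + q * K), w (t / x) := by
      have := intervalIntegral.sum_integral_adjacent_intervals (f := fun t => w (t / x))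
        (μ := volume) (a := fun k : ℕ => r + q * (k : ℝ)) (n := K)
        (fun k _ => hcf.intervalIntegrable _ _)
      rw [this]
      simp
    have h3 : ∀ k ∈ Finset.range K, |(q : ℝ) * w ((r + q * k) / x) -
        ∫ t in (r + q * (k : ℝ))..(r + q * ((k + 1 : ℕ) : ℝ)), w (t / x)| ≤ L * q ^ 2 / x := by
      intro k _
      have h4 : (q : ℝ) * w ((r + q * k) / x) =
          ∫ t in (r + q * (k : ℝ))..(r + q * ((k + 1 : ℕ) : ℝ)), w ((r + q * k) / x) := by
        rw [intervalIntegral.integral_const, smul_eq_mul]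
        push_cast
        ring
      rw [h4, ← intervalIntegral.integral_sub (intervalIntegrable_const) (hcf.intervalIntegrable _ _)]
      have h5 : ∀ t ∈ Set.uIoc (r + q * (k : ℝ)) (r + q * ((k + 1 : ℕ) : ℝ)),
          ‖w ((r + q * k) / x) - w (t / x)‖ ≤ L * (q / x) := by
        intro t ht
        rw [Set.uIoc_of_le (by push_cast; nlinarith)] at ht
        obtain ⟨h6, h7⟩ := ht
        push_cast at h7
        rw [Real.norm_eq_abs]
        refine (hL _ _).trans (mul_le_mul_of_nonneg_left ?_ hL0)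
        rw [← sub_div, abs_div, abs_of_pos hx0]
        refine div_le_div_of_nonneg_right ?_ hx0.le
        rw [abs_le]
        constructor <;> linarith
      have h6 := intervalIntegral.norm_integral_le_of_norm_le_const h5
      rw [Real.norm_eq_abs] at h6
      refine h6.trans (le_of_eq ?_)
      have h7 : r + (q : ℝ) * ((k + 1 : ℕ) : ℝ) - (r + q * (k : ℝ)) = q := by
        push_cast
        ring
      rw [h7, abs_of_pos hq']
      ring
    have h4 : |(q : ℝ) * ∑ k ∈ Finset.range K, w ((r + q * k) / x) - x * ∫ u, w u| ≤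
        K * (L * q ^ 2 / x) := by
      rw [← h1, ← h2, Finset.mul_sum, ← Finset.sum_sub_distrib]
      refine (Finset.abs_sum_le_sum_abs _ _).trans ?_
      refine (Finset.sum_le_sum h3).trans ?_
      rw [Finset.sum_const, Finset.card_range, nsmul_eq_mul]
    have h5 : (K : ℝ) * (L * q ^ 2 / x) ≤ 3 * L * q := by
      have h6 : (K : ℝ) ≤ 3 * x / q := by
        refine hK2.trans ?_
        rw [div_add_one hq'.ne', div_le_div_iff_of_pos_right hq']
        linarith
      calc (K : ℝ) * (L * q ^ 2 / x) ≤ (3 * x / q) * (L * q ^ 2 / x) :=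
            mul_le_mul_of_nonneg_right h6 (by positivity)
        _ = 3 * L * q := by field_simp
    have h6 : ∑ k ∈ Finset.range K, w ((r + q * k) / x) - x * (∫ u, w u) / q =
        ((q : ℝ) * ∑ k ∈ Finset.range K, w ((r + q * k) / x) - x * ∫ u, w u) / q := by
      field_simp
    rw [h6, abs_div, abs_of_pos hq', div_le_iff₀ hq']
    have h7 := h4.trans h5
    have h8 : 3 * L * q ≤ (2 * M + (∫ u, w u) + 3 * L) * q :=
      mul_le_mul_of_nonneg_right (by linarith) hq'.le
    exact h7.trans h8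
  · -- few terms
    have hK3 : (K : ℝ) ≤ 2 := by
      have h1 : 2 * x / q < 2 := by
        rw [div_lt_iff₀ hq']
        linarith
      have h2 : ⌊2 * x / q⌋₊ < 2 := (Nat.floor_lt (by positivity)).2 (by exact_mod_cast h1)
      have h3 : K ≤ 2 := by omega
      exact_mod_cast h3
    have h1 : |∑ k ∈ Finset.range K, w (((a % q : ℕ) + (q : ℝ) * k) / x)| ≤ 2 * M := by
      refine (Finset.abs_sum_le_sum_abs _ _).trans ?_
      have h2 : ∀ k ∈ Finset.range K, |w (((a % q : ℕ) + (q : ℝ) * k) / x)| ≤ M := by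
        intro k _
        rw [abs_of_nonneg (hw.nonneg _)]
        exact hM _
      refine (Finset.sum_le_sum h2).trans ?_
      rw [Finset.sum_const, Finset.card_range, nsmul_eq_mul]
      exact mul_le_mul_of_nonneg_right hK3 hM0
    have h2 : |x * (∫ u, w u) / q| ≤ ∫ u, w u := by
      rw [abs_of_nonneg (by positivity), div_le_iff₀ hq', mul_comm]
      exact mul_le_mul_of_nonneg_left hqx.le hI.le
    have h3 := abs_sub (∑ k ∈ Finset.range K, w (((a % q : ℕ) + (q : ℝ) * k) / x))
      (x * (∫ u, w u) / q)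
    linarith

end MPb51559.BG
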