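import Pool.Agent.Work.MP_b51559_nt.BG.Defs

set_option autoImplicit false

/-!
# Block BG: the final assembly
-/

namespace MPb51559.BG

theorem prf_FIN : FIN := by
  intro hB hSWF hPNT hS hN hT
  obtain ⟨P, F, hP, hF, hC⟩ := hN
  obtain ⟨h, hA, hle⟩ := hT
  obtain ⟨x0, hx0⟩ := hS (hB hSWF) hPNT 49 (by norm_num) h hA P hP F hF hC
  refine ⟨⌈x0⌉₊, fun x hx => ?_⟩
  have hx' : x0 ≤ (x : ℝ) := Nat.ceil_le.mp hx
  obtain ⟨n, hn, hlt, i, j, hij, hi, hj⟩ := hx0 (x : ℝ) hx'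
  have hn' : x < n := by exact_mod_cast hn
  have hlt' : ∀ i, n + h i < 2 * x := fun i => by exact_mod_cast hlt i
  have key : ∀ a b : Fin 49, h a < h b → (n + h a).Prime → (n + h b).Prime →
      ∃ p q : ℕ, p.Prime ∧ q.Prime ∧ x < p ∧ p < q ∧ q ≤ 2 * x ∧ q - p ≤ 240 := by
    intro a b hab ha hb
    refine ⟨n + h a, n + h b, ha, hb, by omega, by omega, (hlt' b).le, ?_⟩
    have := hle b
    omega
  have hne : h i ≠ h j := fun e => hij (hA.1 e)
  rcases lt_or_gt_of_ne hne with hl | hl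
  · exact key i j hl hi hj
  · exact key j i hl hj hi

end MPb51559.BG
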