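import Mathlib

set_option autoImplicit false

/-!
# An admissible set of 49 integers of diameter 240

`T49` is a set of 49 natural numbers, least element `0`, greatest element `240`, all even, which for
every prime `p` misses a residue class modulo `p`.
-/

namespace BG

/-- 49 even numbers from `0` to `240` -/
def T49 : Finset ℕ :=
  {0, 4, 10, 12, 18, 22, 28, 30, 52, 54, 58, 60, 64, 70, 72, 78, 82, 84, 88, 94, 100, 102, 108,
    114, 120, 124, 130, 138, 142, 148, 154, 162, 168, 172, 180, 184, 190, 192, 198, 204, 208, 210,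
    214, 220, 228, 232, 234, 238, 240}

theorem T49_card : T49.card = 49 := by decide +kernel

theorem T49_le : ∀ h ∈ T49, h ≤ 240 := by decide +kernel

theorem T49_even : ∀ h ∈ T49, h % 2 = 0 := by decide +kernel

theorem T49_zero : 0 ∈ T49 := by decide +kernel

theorem T49_last : 240 ∈ T49 := by decide +kernel

theorem T49_diff : ∀ h ∈ T49, ∀ h' ∈ T49, h' - h ≤ 240 := fun _ _ h' hh' =>
  (Nat.sub_le _ _).trans (T49_le h' hh')

/-- a residue class modulo `p` which is missed by `T49`, for the primes below `50` -/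
def miss (p : ℕ) : ℕ :=
  match p with
  | 2 => 1
  | 3 => 2
  | 5 => 1
  | 7 => 6
  | 11 => 2
  | 13 => 1
  | 17 => 8
  | 19 => 17
  | 23 => 17
  | 29 => 19
  | 31 => 5
  | 37 => 1
  | 41 => 14
  | 43 => 3
  | 47 => 9
  | _ => 0

theorem T49_small : ∀ p < 50, p ∈ ([2, 3, 5, 7, 11, 13, 17, 19, 23, 29, 31, 37, 41, 43, 47] : List ℕ) →
    miss p < p ∧ ∀ h ∈ T49, h % p ≠ miss p := by
  decide +kernel

/-- `T49` is admissible -/
theorem T49_adm (p : ℕ) (hp : p.Prime) : ∃ c < p, ∀ h ∈ T49, h % p ≠ c := by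
  rcases lt_or_ge p 50 with h50 | h50
  · have hmem : p ∈ ([2, 3, 5, 7, 11, 13, 17, 19, 23, 29, 31, 37, 41, 43, 47] : List ℕ) := by
      have key : ∀ q < 50, q.Prime → q ∈ ([2, 3, 5, 7, 11, 13, 17, 19, 23, 29, 31, 37, 41, 43, 47] : List ℕ) := by decide +kernel
      exact key p h50 hp
    exact ⟨miss p, (T49_small p h50 hmem).1, (T49_small p h50 hmem).2⟩
  · have hcard : (T49.image (fun h => h % p)).card < (Finset.range p).card := by
      rw [Finset.card_range]
      have h1 := Finset.card_image_le (s := T49) (f := fun h => h % p)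
      rw [T49_card] at h1
      omega
    obtain ⟨c, hc, hcn⟩ := Finset.exists_mem_notMem_of_card_lt_card hcard
    refine ⟨c, Finset.mem_range.1 hc, fun h hh hcon => hcn ?_⟩
    exact Finset.mem_image.2 ⟨h, hh, hcon⟩

/-- the same with integers: for every prime `p` there is an integer `c` such that no `h + c` is
divisible by `p` -/
theorem T49_adm' (p : ℕ) (hp : p.Prime) : ∃ c : ℕ, ∀ h ∈ T49, ¬ p ∣ h + c := by
  obtain ⟨c, hc, hT⟩ := T49_adm p hp
  refine ⟨p - c, fun h hh hd => hT h hh ?_⟩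
  have h1 : (h : ℤ) ≡ (c : ℤ) [ZMOD p] := by
    have h2 : ((p : ℤ)) ∣ (h : ℤ) + ((p - c : ℕ) : ℤ) := by exact_mod_cast hd
    rw [Nat.cast_sub hc.le] at h2
    have h3 : ((p : ℤ)) ∣ (c : ℤ) - h := by
      have h4 : (c : ℤ) - h = p - (h + (p - c)) := by ring
      rw [h4]
      exact dvd_sub (dvd_refl _) h2
    exact (Int.modEq_iff_dvd).2 h3
  have h5 : h ≡ c [MOD p] := (Int.natCast_modEq_iff).1 h1
  have h6 : h % p = c % p := h5
  rwa [Nat.mod_eq_of_lt hc] at h6

/-- the elements of `T49` in increasing order -/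
def t49 : Fin 49 → ℕ :=
  ![0, 4, 10, 12, 18, 22, 28, 30, 52, 54, 58, 60, 64, 70, 72, 78, 82, 84, 88, 94, 100, 102, 108,
    114, 120, 124, 130, 138, 142, 148, 154, 162, 168, 172, 180, 184, 190, 192, 198, 204, 208, 210,
    214, 220, 228, 232, 234, 238, 240]

theorem t49_strictMono : StrictMono t49 := by
  rw [Fin.strictMono_iff_lt_succ]
  decide +kernel

theorem t49_mem (i : Fin 49) : t49 i ∈ T49 := by
  revert i
  decide +kernel

theorem t49_le (i : Fin 49) : t49 i ≤ 240 := T49_le _ (t49_mem i)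

theorem t49_adm (p : ℕ) (hp : p.Prime) : ∃ c < p, ∀ i, t49 i % p ≠ c := by
  obtain ⟨c, hc, h⟩ := T49_adm p hp
  exact ⟨c, hc, fun i => h _ (t49_mem i)⟩

end BG
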