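import Pool.Agent.Work.MP_b51559_nt.BG.Defs
import Pool.Agent.Work.MP_b51559_nt.BG.Tuple49

set_option autoImplicit false

/-!
# Block BG: an admissible tuple of length 49 and diameter 240
-/

namespace MPb51559.BG

theorem prf_Tup49 : Tup49 := by
  refine ⟨_root_.BG.t49, ⟨_root_.BG.t49_strictMono.injective, fun p hp => ?_⟩,
    _root_.BG.t49_le⟩
  obtain ⟨c, hc⟩ := _root_.BG.T49_adm' p hp
  refine ⟨c, fun i hd => hc _ (_root_.BG.t49_mem i) ?_⟩
  rwa [add_comm] at hd

end MPb51559.BG
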