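import Pool.Agent.Work.MP_b51559_nt.BG.FINp
import Pool.Agent.Work.MP_b51559_nt.BG.Tup49
import Pool.Agent.Work.MP_b51559_nt.BG.A.All
import Pool.Agent.Work.MP_b51559_nt.BG.B.All
import Pool.Agent.Work.MP_b51559_nt.BG.C.All

set_option autoImplicit false

/-!
# Block BG: everything except the numerical certificate
-/

namespace MPb51559.BG

theorem all_BVE : BVE := B.B_BVE A.bg_SW A.prf_ABW

/-- the sieve theorem without hypotheses -/
theorem all_SV (k : ℕ) (hk : 2 ≤ k) (hN : NUMk k) (h : Fin k → ℕ) (hA : Adm h) : TwoPrimes h := by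
  obtain ⟨P, F, hP, hF, hC⟩ := hN
  exact prf_SIEVE all_BVE A.bg_PNTW k hk h hA P hP F hF hC

theorem gap_of_NUM (h : NUM) : Gap240 :=
  prf_FIN (fun _ => all_BVE) A.bg_SWF A.bg_PNTW prf_SIEVE h prf_Tup49

end MPb51559.BG
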