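import Pool.Agent.Work.MP_b51559_nt.BG.Fin
import Pool.Agent.Work.MP_b51559_nt.BG.D.AllM
import Pool.Agent.Work.MP_b51559_nt.BG.D.Z49b

set_option autoImplicit false

/-!
# Block BG: the final theorem
-/

namespace MPb51559.BG

theorem all_NUM : NUM := D.num_of_dat D.Z49 48 (by norm_num) D.Z49_good D.Z49_ineq

theorem gap240 : Gap240 := gap_of_NUM all_NUM

end MPb51559.BG
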