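import Pool.Agent.Work.MP_b51559_nt.BG.Defs
import Pool.Agent.Work.MP_b51559_nt.BG.Tuple49

set_option autoImplicit false

/-!
# Block BG: every even number has a multiple, by a factor at most 120, which is the difference of
two primes in every interval `(x, 2x]`, `x` large
-/

namespace MPb51559.BG

theorem t49_even (i : Fin 49) : ∃ s, _root_.BG.t49 i = 2 * s := by
  have := _root_.BG.T49_even _ (_root_.BG.t49_mem i)
  exact ⟨_root_.BG.t49 i / 2, by omega⟩

/-- the scaled tuple is admissible -/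
theorem adm_scale (m : ℕ) (hm : 0 < m) : Adm (fun i : Fin 49 => m * _root_.BG.t49 i) := by
  constructor
  · intro i j hij
    exact _root_.BG.t49_strictMono.injective (Nat.eq_of_mul_eq_mul_left hm hij)
  · intro p hp
    by_cases hpm : p ∣ m
    · refine ⟨1, fun i hd => ?_⟩
      have h1 : p ∣ m * _root_.BG.t49 i := hpm.mul_right _
      have h2 : p ∣ 1 := (Nat.dvd_add_left h1).1 hd
      exact hp.one_lt.ne' (Nat.dvd_one.1 h2)
    · obtain ⟨c, hc⟩ := _root_.BG.T49_adm' p hp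
      refine ⟨m * c, fun i hd => hc _ (_root_.BG.t49_mem i) ?_⟩
      have h1 : p ∣ m * (c + _root_.BG.t49 i) := by rw [mul_add]; exact hd
      have h2 := (hp.dvd_mul.1 h1).resolve_left hpm
      rwa [add_comm] at h2

/-- the final form, from the sieve theorem for 49-tuples -/
theorem mul_of_two (hS : ∀ h : Fin 49 → ℕ, Adm h → TwoPrimes h) :
    ∀ h : ℕ, 0 < h → Even h → ∃ N : ℕ, ∀ x ≥ N, ∃ p q j : ℕ, p.Prime ∧ q.Prime ∧ x < p ∧
      q ≤ 2 * x ∧ 1 ≤ j ∧ j ≤ 120 ∧ q = p + j * h := by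
  intro h hh he
  obtain ⟨m, rfl⟩ := he
  have hm : 0 < m := by omega
  obtain ⟨x0, hx0⟩ := hS _ (adm_scale m hm)
  refine ⟨⌈x0⌉₊, fun x hx => ?_⟩
  have hx' : x0 ≤ (x : ℝ) := Nat.ceil_le.mp hx
  obtain ⟨n, hn, hlt, i, j, hij, hi, hj⟩ := hx0 (x : ℝ) hx'
  have hn' : x < n := by exact_mod_cast hn
  have hlt' : ∀ i, n + m * _root_.BG.t49 i < 2 * x := fun i => by exact_mod_cast hlt i
  have key : ∀ a b : Fin 49, _root_.BG.t49 a < _root_.BG.t49 b →
      (n + m * _root_.BG.t49 a).Prime → (n + m * _root_.BG.t49 b).Prime →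
      ∃ p q j : ℕ, p.Prime ∧ q.Prime ∧ x < p ∧ q ≤ 2 * x ∧ 1 ≤ j ∧ j ≤ 120 ∧
        q = p + j * (m + m) := by
    intro a b hab ha hb
    obtain ⟨s, hs⟩ := t49_even a
    obtain ⟨s', hs'⟩ := t49_even b
    have h240 : _root_.BG.t49 b ≤ 240 := _root_.BG.t49_le b
    obtain ⟨d, rfl⟩ : ∃ d, s' = s + d := ⟨s' - s, by omega⟩
    refine ⟨_, _, d, ha, hb, lt_of_lt_of_le hn' (Nat.le_add_right _ _), (hlt' b).le, by omega,
      by omega, ?_⟩
    rw [hs, hs']
    ring
  rcases lt_or_gt_of_ne (fun e => hij (_root_.BG.t49_strictMono.injective e) :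
      _root_.BG.t49 i ≠ _root_.BG.t49 j) with hl | hl
  · exact key i j hl hi hj
  · exact key j i hl hj hi

end MPb51559.BG
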