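import Pool.Agent.Work.MP_b51559_nt.BG.Mul
import Pool.Agent.Work.MP_b51559_nt.BG.E.Dens

set_option autoImplicit false

/-!
# Block BG: consecutive primes in a progression whose difference is a small multiple of a given
even number, in every interval `(x, 2x)`, `x` large
-/

namespace MPb51559.BG

/-- the final form, from the theorem on 49-tuples -/
theorem mulC_of (hT : ∀ (h : Fin 49 → ℕ), Adm h → ∀ q a : ℕ, Squarefree q → a.Coprime q →
      (∀ i, q ∣ h i) → ∃ x0 : ℝ, ∀ x ≥ x0, ∃ i j : Fin 49, h i < h j ∧ Dif q a x (h j - h i)) :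
    ∀ h q a : ℕ, 0 < h → Even h → Squarefree q → q ∣ h → a.Coprime q →
      ∃ N : ℕ, ∀ x ≥ N, ∃ p p' j : ℕ, p.Prime ∧ p'.Prime ∧ (∀ r, p < r → r < p' → ¬ r.Prime) ∧
        x < p ∧ p' < 2 * x ∧ p ≡ a [MOD q] ∧ 1 ≤ j ∧ j ≤ 120 ∧ p' = p + j * h := by
  intro h q a hh he hq hqh hqa
  obtain ⟨m, rfl⟩ := he
  have hm : 0 < m := by omega
  obtain ⟨x0, hx0⟩ := hT _ (adm_scale m hm) q a hq hqa (fun i => by
    obtain ⟨s, hs⟩ := t49_even i
    rw [hs, show m * (2 * s) = (m + m) * s by ring]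
    exact hqh.mul_right s)
  refine ⟨⌈x0⌉₊, fun x hx => ?_⟩
  have hx' : x0 ≤ (x : ℝ) := Nat.ceil_le.mp hx
  obtain ⟨i, j, hij, p, p', hp, hp', hxp, hpp, hlt, hcon, hmod, heq⟩ := hx0 (x : ℝ) hx'
  obtain ⟨s, hs⟩ := t49_even i
  obtain ⟨s', hs'⟩ := t49_even j
  have h240 : _root_.BG.t49 j ≤ 240 := _root_.BG.t49_le j
  have hij' : _root_.BG.t49 i < _root_.BG.t49 j := Nat.lt_of_mul_lt_mul_left hij
  obtain ⟨d, rfl⟩ : ∃ d, s' = s + d := ⟨s' - s, by omega⟩
  refine ⟨p, p', d, hp, hp', hcon, by exact_mod_cast hxp, by exact_mod_cast hlt, hmod, by omega,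
    by omega, ?_⟩
  have e : m * _root_.BG.t49 j - m * _root_.BG.t49 i = d * (m + m) := by
    rw [hs, hs', show m * (2 * (s + d)) = m * (2 * s) + d * (m + m) by ring]
    omega
  rw [heq]
  exact congrArg (fun z => p + z) e

end MPb51559.BG
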